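import Pool.Agent.Helper97.Tns.Goals
import Pool.Agent.Helper16.Abund.Trace2

/-!
# BOUND: the `ℓ^q` bound for the sheets of an `L^q` tensor field

This follows helper16's `exists_bound`.
-/

open scoped Manifold ContDiff ENNReal Topology
open MeasureTheory Metric
open Pool.Agent.Helper16.Abund Pool.Agent.Helper97.Tns
open Pool.Agent.Helper49.Abund (mean_rpow)

namespace Pool.Agent.Helper75.Tns

universe u

variable {n : ℕ} {X Y : Type*} [TopologicalSpace X] [ChartedSpace (Fin n → ℂ) X]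
    [TopologicalSpace Y] [ChartedSpace (Fin n → ℂ) Y]

theorem comp_id_comm {f g : (Fin n → ℂ) →L[ℂ] (Fin n → ℂ)}
    (h : f.comp g = ContinuousLinearMap.id ℂ _) : g.comp f = ContinuousLinearMap.id ℂ _ := by
  have h1 : (f : (Fin n → ℂ) →ₗ[ℂ] (Fin n → ℂ)) ∘ₗ (g : (Fin n → ℂ) →ₗ[ℂ] (Fin n → ℂ)) =
      LinearMap.id := by
    ext1 x
    have := congrArg (fun F : (Fin n → ℂ) →L[ℂ] (Fin n → ℂ) => F (Pi.single x 1)) h
    ext j
    simpa using congrFun this j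
  have h2 := (LinearMap.comp_eq_id_comm ℂ (Fin n → ℂ)).1 h1
  ext1 v
  exact LinearMap.congr_fun h2 v

/-- The inverse of the derivative of `p` is the derivative of the sheet. -/
theorem inverse_der {p : Y → X}
    (hloc : IsLocalDiffeomorph 𝓘(ℂ, Fin n → ℂ) 𝓘(ℂ, Fin n → ℂ) ω p) {x₀ : X} {U : Set X}
    {σ : (p ⁻¹' {x₀}) → X → Y} (S : Sheets (n := n) p x₀ U σ) (i : p ⁻¹' {x₀}) {x : X}
    (hx : x ∈ U) : (der n p (σ i x)).inverse = der n (σ i) x := by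
  have hσ : MDifferentiableAt 𝓘(ℂ, Fin n → ℂ) 𝓘(ℂ, Fin n → ℂ) (σ i) x :=
    (S.mdiff i).mdifferentiableAt (S.isOpen.mem_nhds hx)
  have hp : MDifferentiableAt 𝓘(ℂ, Fin n → ℂ) 𝓘(ℂ, Fin n → ℂ) p (σ i x) :=
    (hloc _).mdifferentiableAt (by simp)
  have hev : p ∘ σ i =ᶠ[𝓝 x] id := by
    filter_upwards [S.isOpen.mem_nhds hx] with w hw
    exact S.sect i w hw
  have h1 : (der n p (σ i x)).comp (der n (σ i) x) = ContinuousLinearMap.id ℂ _ := by
    unfold der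
    have e1 := mfderiv_comp x hp hσ
    have e2 : mfderiv 𝓘(ℂ, Fin n → ℂ) 𝓘(ℂ, Fin n → ℂ) (p ∘ σ i) x =
      mfderiv 𝓘(ℂ, Fin n → ℂ) 𝓘(ℂ, Fin n → ℂ) id x := hev.mfderiv_eq
    rw [mfderiv_id] at e2
    exact e1.symm.trans e2
  exact ContinuousLinearMap.inverse_eq h1 (comp_id_comm h1)

theorem der_comp_sheet {p : Y → X} {x₀ : X} {U : Set X}
    {σ : (p ⁻¹' {x₀}) → X → Y} (S : Sheets (n := n) p x₀ U σ) (i : p ⁻¹' {x₀})
    {ψ : (Fin n → ℂ) → X} {z : Fin n → ℂ}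
    (hψ : MDifferentiableAt 𝓘(ℂ, Fin n → ℂ) 𝓘(ℂ, Fin n → ℂ) ψ z) (hz : ψ z ∈ U)
    (w : Fin n → ℂ) :
    der n (fun w => σ i (ψ w)) z w = der n (σ i) (ψ z) (der n ψ z w) := by
  have hσ : MDifferentiableAt 𝓘(ℂ, Fin n → ℂ) 𝓘(ℂ, Fin n → ℂ) (σ i) (ψ z) :=
    (S.mdiff i).mdifferentiableAt (S.isOpen.mem_nhds hz)
  have e1 := mfderiv_comp z hσ hψ
  unfold der
  change (mfderiv 𝓘(ℂ, Fin n → ℂ) 𝓘(ℂ, Fin n → ℂ) (σ i ∘ ψ) z : (Fin n → ℂ) →L[ℂ] (Fin n → ℂ)) w = _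
  rw [e1]
  rfl

theorem push_sheet {p : Y → X}
    (hloc : IsLocalDiffeomorph 𝓘(ℂ, Fin n → ℂ) 𝓘(ℂ, Fin n → ℂ) ω p) {a : ℕ} (b : ℤ)
    (s : Y → Ten n a) {x₀ : X} {U : Set X}
    {σ : (p ⁻¹' {x₀}) → X → Y} (S : Sheets (n := n) p x₀ U σ) (i : p ⁻¹' {x₀})
    {ψ : (Fin n → ℂ) → X} {z : Fin n → ℂ}
    (hψ : MDifferentiableAt 𝓘(ℂ, Fin n → ℂ) 𝓘(ℂ, Fin n → ℂ) ψ z) (hz : ψ z ∈ U)
    (w : Fin a → Fin n → ℂ) :
    push n p b s (σ i (ψ z)) (fun t => der n ψ z (w t)) * jac n ψ z ^ b =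
      s (σ i (ψ z)) (fun t => der n (fun w => σ i (ψ w)) z (w t)) *
        jac n (fun w => σ i (ψ w)) z ^ b := by
  rw [S.jac_comp_sheet hloc i hψ hz, div_zpow]
  unfold push
  rw [inverse_der hloc S i hz, smul_apply, MultilinearMap.compLinearMap_apply,
    smul_eq_mul]
  have h1 : (fun t => der n (fun w => σ i (ψ w)) z (w t)) =
      fun t => (der n (σ i) (ψ z) : (Fin n → ℂ) →ₗ[ℂ] (Fin n → ℂ)) (der n ψ z (w t)) := by
    funext t
    exact der_comp_sheet S i hψ hz (w t)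
  rw [h1, div_eq_mul_inv]
  ring

/-- Packet BOUND. -/
theorem bound : S_BOUND.{u} := by
  classical
  intro n X Y _ _ _ _ _ p hloc a b s q hs hq hLq x₀ U σ S
  set χ := chartAt (Fin n → ℂ) x₀ with hχ
  obtain ⟨r₀, hr₀, hsub, hint⟩ := hLq x₀
  rw [← hχ] at hsub hint
  -- a smaller ball mapped into `U`
  have hx₀s : x₀ ∈ χ.source := mem_chart_source _ x₀
  have hopen : IsOpen (χ.target ∩ χ.symm ⁻¹' U) := χ.isOpen_inter_preimage_symm S.isOpen
  have hmem : χ x₀ ∈ χ.target ∩ χ.symm ⁻¹' U := by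
    refine ⟨χ.map_source hx₀s, ?_⟩
    rw [Set.mem_preimage, χ.left_inv hx₀s]
    exact S.mem
  obtain ⟨r₁, hr₁, hsub₁⟩ := Metric.isOpen_iff.1 hopen _ hmem
  set r : ℝ := min r₀ r₁ / 2 with hr
  have hrpos : 0 < r := by rw [hr]; positivity
  have h2r0 : 2 * r ≤ r₀ := by rw [hr]; linarith [min_le_left r₀ r₁]
  have h2r1 : 2 * r ≤ r₁ := by rw [hr]; linarith [min_le_right r₀ r₁]
  have hB2 : ∀ z ∈ ball (χ x₀) (2 * r), z ∈ χ.target ∧ χ.symm z ∈ U := by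
    intro z hz
    exact hsub₁ (ball_subset_ball h2r1 hz)
  have hB1 : ball (χ x₀) r ⊆ ball (χ x₀) (2 * r) := ball_subset_ball (by linarith)
  refine ⟨r, hrpos, fun z hz => hB2 z (hB1 hz), fun w => ?_⟩
  let g : (p ⁻¹' {x₀}) → (Fin n → ℂ) → ℂ := fun i z =>
    push n p b s (σ i (χ.symm z)) (fun t => der n χ.symm z (w t)) * jac n χ.symm z ^ b
  have hg : ∀ i, DifferentiableOn ℂ (g i) (ball (χ x₀) (2 * r)) := by
    intro i
    have hmd : MDifferentiableOn 𝓘(ℂ, Fin n → ℂ) 𝓘(ℂ, Fin n → ℂ) (fun z => σ i (χ.symm z))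
        (ball (χ x₀) (2 * r)) := by
      intro z hz
      have h1 : MDifferentiableAt 𝓘(ℂ, Fin n → ℂ) 𝓘(ℂ, Fin n → ℂ) χ.symm z :=
        (mdiff_chart_symm x₀).mdifferentiableAt (χ.open_target.mem_nhds (hB2 z hz).1)
      have h2 : MDifferentiableAt 𝓘(ℂ, Fin n → ℂ) 𝓘(ℂ, Fin n → ℂ) (σ i) (χ.symm z) :=
        (S.mdiff i).mdifferentiableAt (S.isOpen.mem_nhds (hB2 z hz).2)
      exact (h2.comp z h1).mdifferentiableWithinAt
    have hjac : ∀ z ∈ ball (χ x₀) (2 * r), jac n (fun z => σ i (χ.symm z)) z ≠ 0 := by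
      intro z hz
      rw [S.jac_comp_sheet hloc i ((mdiff_chart_symm x₀).mdifferentiableAt
        (χ.open_target.mem_nhds (hB2 z hz).1)) (hB2 z hz).2]
      exact div_ne_zero (jac_chart_symm_ne_zero x₀ (hB2 z hz).1) (jac_ne_zero hloc _)
    refine (hs _ _ isOpen_ball hmd hjac w).congr ?_
    intro z hz
    exact push_sheet hloc b s S i ((mdiff_chart_symm x₀).mdifferentiableAt
      (χ.open_target.mem_nhds (hB2 z hz).1)) (hB2 z hz).2 w
  -- the integrand over the ball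
  have hpt : ∀ z ∈ ball (χ x₀) (2 * r), ∑' y : p ⁻¹' {χ.symm z},
      ENNReal.ofReal (‖push n p b s y.1 (fun t => der n χ.symm z (w t)) *
        jac n χ.symm z ^ b‖ ^ q) =
      ∑' i, ENNReal.ofReal (‖g i z‖ ^ q) := by
    intro z hz
    rw [S.tsum_fibre (hB2 z hz).2 (fun y => ENNReal.ofReal
      (‖push n p b s y (fun t => der n χ.symm z (w t)) * jac n χ.symm z ^ b‖ ^ q))]
  let J : (p ⁻¹' {x₀}) → ℝ≥0∞ := fun i =>
    ∫⁻ z in ball (χ x₀) (2 * r), ENNReal.ofReal (‖g i z‖ ^ q)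
  have hmeas : ∀ i, AEMeasurable (fun z => ENNReal.ofReal (‖g i z‖ ^ q))
      (volume.restrict (ball (χ x₀) (2 * r))) := by
    intro i
    have h1 : ContinuousOn (fun z => ‖g i z‖ ^ q) (ball (χ x₀) (2 * r)) := by
      apply ContinuousOn.rpow_const
      · exact (hg i).continuousOn.norm
      · intro z _
        exact Or.inr hq.le
    exact (h1.aemeasurable measurableSet_ball).ennreal_ofReal
  have hJ : ∑' i, J i < ⊤ := by
    refine lt_of_le_of_lt ?_ (hint w)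
    have hle : ∑' i, J i ≤ ∫⁻ z in ball (χ x₀) (2 * r), ∑' i, ENNReal.ofReal (‖g i z‖ ^ q) := by
      rw [ENNReal.tsum_eq_iSup_sum]
      apply iSup_le
      intro s
      rw [← lintegral_finsetSum' s fun i _ => hmeas i]
      apply lintegral_mono
      intro z
      exact ENNReal.sum_le_tsum s
    refine hle.trans ?_
    calc ∫⁻ z in ball (χ x₀) (2 * r), ∑' i, ENNReal.ofReal (‖g i z‖ ^ q)
        = ∫⁻ z in ball (χ x₀) (2 * r), ∑' y : p ⁻¹' {χ.symm z},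
            ENNReal.ofReal (‖push n p b s y.1 (fun t => der n χ.symm z (w t)) *
              jac n χ.symm z ^ b‖ ^ q) := by
          apply setLIntegral_congr_fun measurableSet_ball
          intro z hz
          exact (hpt z hz).symm
      _ ≤ _ := lintegral_mono_set (ball_subset_ball h2r0)
  set v : ℝ≥0∞ := volume (ball (χ x₀) r) with hv
  have hv0 : v ≠ 0 := (volume_ball_pos _ hrpos).ne'
  have hvt : v ≠ ⊤ := measure_ball_lt_top.ne
  have hJi : ∀ i, J i ≠ ⊤ := fun i => ((ENNReal.le_tsum i).trans_lt hJ).ne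
  refine ⟨fun i => (hg i).mono hB1, fun i => (J i / v).toReal, ?_,
    fun i => ENNReal.toReal_nonneg, ?_⟩
  · apply ENNReal.summable_toReal
    have : ∑' i, J i / v = (∑' i, J i) / v := by
      simp only [div_eq_mul_inv]
      rw [ENNReal.tsum_mul_right]
    rw [this]
    exact (ENNReal.div_lt_top hJ.ne hv0).ne
  · intro z hz i
    have hz2 : z ∈ ball (χ x₀) (2 * r) := hB1 hz
    change ‖g i z‖ ^ q ≤ (J i / v).toReal
    have hsubz : ball z r ⊆ ball (χ x₀) (2 * r) := by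
      apply ball_subset_ball'
      have := (mem_ball.1 hz).le
      linarith
    have h1 := mean_rpow hrpos ((hg i).mono hsubz) hq
    rw [volume_ball_eq z (χ x₀) r, ← hv] at h1
    have h2 : ENNReal.ofReal (‖g i z‖ ^ q) * v ≤ J i := h1.trans (lintegral_mono_set hsubz)
    have h3 : ENNReal.ofReal (‖g i z‖ ^ q) ≤ J i / v := by
      rw [ENNReal.le_div_iff_mul_le (Or.inl hv0) (Or.inl hvt)]
      exact h2
    have h4 : J i / v ≠ ⊤ := (ENNReal.div_lt_top (hJi i) hv0).ne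
    exact (ENNReal.ofReal_le_iff_le_toReal h4).1 h3

end Pool.Agent.Helper75.Tns
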